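import Pool.Agent.TPC.RealThm

/-!
The cosecant conjecture for Schubert problems: all Grassmannians `G(k,n)`, all Schubert problems.
-/

namespace Pool.Agent.Results.MP_0b2914_ag.CosecantConjecture

open Module Pool.CSC

/-- Let `1 ≤ k < n` and let the partitions `lam l`, `l = 0, ..., m - 1`, be a Schubert problem on
`G(k,n)`. Then there is a number `d` such that the intersection of the Schubert varieties for
general flags has `d` points (and no other number has this property), and for all flags cosecant
to the rational normal curve along pairwise disjoint intervals the intersection of the Schubert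
varieties consists of exactly `d` points, every one of them is real, and the intersection is
transverse there. -/
theorem result (k n m : ℕ) (hk : 1 ≤ k) (hkn : k < n)
    (lam : Fin m → Fin k → ℕ) (hlam : IsProblem k n m lam) :
    ∃ d, (∀ d', IsGenericNumber k n m lam d' ↔ d' = d) ∧
      ∀ (I : Fin m → Set ℝ) (F : Fin m → ℕ → Submodule ℂ (Fin n → ℂ)),
        (∀ l, (I l).OrdConnected) → Pairwise (fun l l' => Disjoint (I l) (I l')) →
        (∀ l, Cosecant n (I l) (F l)) →
        (⋂ l, schub k n (lam l) (F l)).encard = d ∧
          ∀ H ∈ ⋂ l, schub k n (lam l) (F l), IsReal n H ∧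
            ∀ φ : ↥H →ₗ[ℂ] (Fin n → ℂ) ⧸ H,
              (∀ l, TangentTo k n (lam l) (F l) H φ) → φ = 0 :=
  Pool.TPC.cosecant hk hkn hlam

end Pool.Agent.Results.MP_0b2914_ag.CosecantConjecture
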